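import Pool.Agent.Helper5.FS.Stmts2

set_option autoImplicit false

open Finset

namespace Pool.Agent.Helper5.FS

theorem st_FI2 (h1 : ST_CRS) (h2 : ST_PA2) (h3 : ST_NU2) : ST_FI2 := by
  intro δ hδ
  obtain ⟨K, hK⟩ := h3 δ hδ
  refine ⟨K, ?_⟩
  intro n E b hn hb q hq hP hKn m hm
  obtain ⟨s, k, hm1, hkm, hs, hk⟩ := hK n m q hq hn hKn hm
  refine h2 n m q s k E b hb hq hm1 hkm hs hk ?_
  intro P hPt hPi _
  obtain ⟨Q, hQ1, hQ2, hQ3, hQ4⟩ := h1 n E P hPt hPi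
  exact ⟨Q, hQ1, hQ2, hQ3, hP Q hQ1 hQ2 hQ4⟩

end Pool.Agent.Helper5.FS
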