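import Pool.Agent.Helper5.FS.Stmts

set_option autoImplicit false

open Finset

namespace Pool.Agent.Helper5.FS

theorem sml_sum {n : ℕ} (P : Finset (Finset (Fin n))) (hP : Pt P) : ∑ B ∈ P, B.card = n := by
  have h1 : (P.biUnion id).card = ∑ B ∈ P, B.card := by
    rw [Finset.card_biUnion]
    · rfl
    · intro B hB C hC hne
      exact hP.2.1 B hB C hC hne
  have h2 : P.biUnion id = univ := by
    ext v
    simp only [mem_biUnion, id, mem_univ, iff_true]
    exact hP.2.2 v
  rw [← h1, h2, card_univ, Fintype.card_fin]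

theorem st_SML : ST_SML := by
  intro n s m P hP hm h
  have hsum := sml_sum P hP
  have hsplit : (P.filter (fun B => B.card ≤ s)).card +
      (P.filter (fun B => ¬ B.card ≤ s)).card = P.card := by
    exact Finset.card_filter_add_card_filter_not _
  have hl : (s + 1) * (P.filter (fun B => ¬ B.card ≤ s)).card ≤ n := by
    calc (s + 1) * (P.filter (fun B => ¬ B.card ≤ s)).card
        = ∑ B ∈ P.filter (fun B => ¬ B.card ≤ s), (s + 1) := by
          rw [sum_const, smul_eq_mul, mul_comm]
      _ ≤ ∑ B ∈ P.filter (fun B => ¬ B.card ≤ s), B.card :=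
          sum_le_sum fun B hB => by
            have := (mem_filter.1 hB).2
            omega
      _ ≤ ∑ B ∈ P, B.card := sum_le_sum_of_subset (filter_subset _ _)
      _ = n := hsum
  have h2 : 2 * (P.filter (fun B => ¬ B.card ≤ s)).card ≤ m := by
    apply Nat.le_of_mul_le_mul_left _ (Nat.succ_pos s)
    have : (s + 1) * (2 * (P.filter (fun B => ¬ B.card ≤ s)).card) =
        2 * ((s + 1) * (P.filter (fun B => ¬ B.card ≤ s)).card) := by ring
    show (s + 1) * _ ≤ (s + 1) * _
    rw [this]
    omega
  omega

end Pool.Agent.Helper5.FS
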